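import Mathlib

namespace Pool.Agent.Helper352.Bed

open Finset

/-- good approximations with arbitrarily large denominators -/
theorem exists_good {θ : ℝ} (hθ : Irrational θ) (B : ℕ) :
    ∃ (q : ℕ) (u : ℤ), B < q ∧ IsCoprime u (q : ℤ) ∧ |θ - u / q| ≤ 1 / (q : ℝ) ^ 2 := by
  set F : ℕ := B.factorial with hF
  have hFpos : (0 : ℝ) < F := by exact_mod_cast B.factorial_pos
  set η : ℝ := |(F : ℝ) * θ - round ((F : ℝ) * θ)| with hη
  have hirr : Irrational ((F : ℝ) * θ) := hθ.natCast_mul B.factorial_ne_zero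
  have hηpos : 0 < η := by
    rw [hη, abs_pos, sub_ne_zero]
    exact fun h => hirr.ne_int _ h
  obtain ⟨n, hn⟩ := exists_nat_gt (F / η)
  have hn0 : 0 < n := by
    have : (0 : ℝ) < n := lt_trans (by positivity) hn
    exact_mod_cast this
  obtain ⟨r, hr1, hr2⟩ := Real.exists_rat_abs_sub_le_and_den_le θ hn0
  have hden : (0 : ℝ) < (r.den : ℝ) := by exact_mod_cast r.den_pos
  have hcast : ((r.num : ℤ) : ℝ) / (r.den : ℝ) = (r : ℝ) := by
    exact_mod_cast (Rat.num_div_den r)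
  refine ⟨r.den, r.num, ?_, ?_, ?_⟩
  · by_contra hc
    push Not at hc
    have hdvd : r.den ∣ F := Nat.dvd_factorial r.den_pos hc
    obtain ⟨k, hk⟩ := hdvd
    have h1 : η ≤ |(F : ℝ) * θ - ((k * r.num : ℤ) : ℝ)| := round_le _ _
    have h2 : (F : ℝ) * θ - ((k * r.num : ℤ) : ℝ) = F * (θ - r) := by
      rw [← hcast, hk]
      push_cast
      field_simp
    rw [h2, abs_mul, abs_of_pos hFpos] at h1
    have h3 : |θ - r| ≤ 1 / ((n + 1) * 1) := by
      refine hr1.trans ?_
      apply one_div_le_one_div_of_le (by positivity)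
      apply mul_le_mul_of_nonneg_left _ (by positivity)
      exact_mod_cast r.den_pos
    have h4 : η ≤ F * (1 / ((n + 1) * 1)) := h1.trans (mul_le_mul_of_nonneg_left h3 hFpos.le)
    rw [div_lt_iff₀ hηpos] at hn
    rw [mul_one, mul_one_div, le_div_iff₀ (by positivity)] at h4
    nlinarith
  · have := r.reduced
    rw [Int.isCoprime_iff_nat_coprime]
    simpa using this
  · rw [hcast]
    refine hr1.trans ?_
    apply one_div_le_one_div_of_le (by positivity)
    rw [sq]
    apply mul_le_mul_of_nonneg_right _ hden.le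
    have : (r.den : ℝ) ≤ n := by exact_mod_cast hr2
    linarith

theorem exists_in {θ w : ℝ} {q : ℕ} {u : ℤ} (hq : 0 < q) (hcop : IsCoprime u (q : ℤ))
    (hδ : |θ - u / q| ≤ 1 / (q : ℝ) ^ 2) :
    ∃ i : ℕ, i < q ∧ ∃ n : ℤ, 0 < w - i * θ - n ∧ w - i * θ - n < 3 / q := by
  have hq' : (0 : ℝ) < q := by exact_mod_cast hq
  set N : ℤ := ⌊(q : ℝ) * w⌋ - 1 with hN
  obtain ⟨v, z, hvz⟩ := hcop
  -- v * u + z * q = 1
  set j : ℤ := (N * v) % q with hj
  have hj0 : 0 ≤ j := Int.emod_nonneg _ (by exact_mod_cast hq.ne')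
  have hj1 : j < q := Int.emod_lt_of_pos _ (by exact_mod_cast hq)
  obtain ⟨i, hi⟩ := Int.eq_ofNat_of_zero_le hj0
  have hiq : i < q := by
    have : (i : ℤ) < q := by rw [← hi]; exact hj1
    exact_mod_cast this
  -- u * i = N + q * k
  have hk : ∃ k : ℤ, u * i = N + q * k := by
    have h1 := Int.emod_add_mul_ediv (N * v) q
    refine ⟨-(u * (N * v / q)) - N * z, ?_⟩
    have h2 : (i : ℤ) = N * v - q * (N * v / q) := by
      rw [← hi]; linarith
    rw [h2]
    linear_combination N * hvz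
  obtain ⟨k, hk⟩ := hk
  have hk' : (u : ℝ) * i = N + q * k := by exact_mod_cast hk
  refine ⟨i, hiq, -k, ?_⟩
  have h1 : w - i * θ - ((-k : ℤ) : ℝ) = (q * w - N) / q - i * (θ - u / q) := by
    push_cast
    field_simp
    linear_combination -hk'
  have h2 : (1 : ℝ) ≤ q * w - N := by
    have := Int.floor_le ((q : ℝ) * w)
    rw [hN]; push_cast; linarith
  have h3 : (q : ℝ) * w - N < 2 := by
    have := Int.lt_floor_add_one ((q : ℝ) * w)
    rw [hN]; push_cast; linarith
  have h4 : |(i : ℝ) * (θ - u / q)| < 1 / q := by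
    rw [abs_mul, abs_of_nonneg (by positivity)]
    calc (i : ℝ) * |θ - u / q| ≤ i * (1 / (q : ℝ) ^ 2) :=
          mul_le_mul_of_nonneg_left hδ (by positivity)
      _ < q * (1 / (q : ℝ) ^ 2) := by
          apply mul_lt_mul_of_pos_right _ (by positivity)
          exact_mod_cast hiq
      _ = 1 / q := by field_simp
  rw [abs_lt] at h4
  rw [h1]
  have h5 : 1 / (q : ℝ) ≤ (q * w - N) / q := by
    apply div_le_div_of_nonneg_right h2 hq'.le
  have h6 : (q * w - N) / q < 2 / (q : ℝ) := div_lt_div_of_pos_right h3 hq'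
  have h7 : (3 : ℝ) / q = 2 / q + 1 / q := by ring
  constructor
  · linarith
  · linarith

theorem exists_mn {α β : ℝ} (hα : 0 < α) (hαβ : α < β) {q : ℕ} {u : ℤ} (hq : 3 ≤ q)
    (hcop : IsCoprime u (q : ℤ)) (hδ : |α / β - u / q| ≤ 1 / (q : ℝ) ^ 2) {R : ℕ}
    (hR : 4 * q ≤ 2 ^ R) {y : ℝ} (hy1 : q * α ≤ y) (hy2 : y ≤ 2 ^ R * β + 2 * q * α) :
    ∃ m n : ℕ, m < 2 ^ R ∧ n < 2 ^ R ∧ m * α + n * β ≤ y ∧ y ≤ m * α + n * β + 3 * β / q := by
  have hβ : 0 < β := hα.trans hαβ
  have hq' : (3 : ℝ) ≤ q := by exact_mod_cast hq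
  have hR' : 4 * (q : ℝ) ≤ 2 ^ R := by exact_mod_cast hR
  -- general step
  have key : ∀ m0 : ℕ, m0 + q ≤ 2 ^ R → (∀ m : ℕ, m0 ≤ m → m < m0 + q → m * α ≤ y) →
      (∀ m : ℕ, m0 ≤ m → m < m0 + q → y - m * α ≤ 2 ^ R * β) →
      ∃ m n : ℕ, m < 2 ^ R ∧ n < 2 ^ R ∧ m * α + n * β ≤ y ∧ y ≤ m * α + n * β + 3 * β / q := by
    intro m0 hm0 h1 h2
    obtain ⟨i, hi, n, h3, h4⟩ := exists_in (w := y / β - m0 * (α / β)) (by omega) hcop hδ
    have h5 := h1 (m0 + i) (by omega) (by omega)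
    have h6 := h2 (m0 + i) (by omega) (by omega)
    push_cast at h5 h6
    have h7 : y / β - m0 * (α / β) - i * (α / β) - n = (y - (m0 + i) * α - n * β) / β := by
      field_simp
      ring
    rw [h7] at h3 h4
    have h8 : 0 < y - (m0 + i) * α - n * β := by
      rcases div_pos_iff.1 h3 with h | h
      · exact h.1
      · linarith [h.2]
    have h9 : y - (m0 + i) * α - n * β < 3 / q * β := by
      rwa [div_lt_iff₀ hβ] at h4
    have h10 : (3 : ℝ) / q ≤ 1 := by
      rw [div_le_one (by linarith)]; exact hq'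
    have hn : 0 ≤ n := by
      by_contra hc
      push Not at hc
      have : (n : ℝ) ≤ -1 := by exact_mod_cast Int.le_sub_one_of_lt hc
      nlinarith
    obtain ⟨n', hn'⟩ := Int.eq_ofNat_of_zero_le hn
    subst hn'
    refine ⟨m0 + i, n', by omega, ?_, ?_, ?_⟩
    · have h11 : ((n' : ℤ) : ℝ) * β < 2 ^ R * β := by linarith
      have h12 := lt_of_mul_lt_mul_right h11 hβ.le
      have h13 : (n' : ℝ) < 2 ^ R := by simpa using h12
      exact_mod_cast h13
    · push_cast at *; linarith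
    · push_cast at *
      have h14 : 3 / (q : ℝ) * β = 3 * β / q := by ring
      linarith
  by_cases hy : y ≤ 2 ^ R * β
  · apply key 0 (by omega)
    · intro m _ hm
      have : (m : ℝ) ≤ q := by exact_mod_cast (by omega : m ≤ q)
      nlinarith
    · intro m _ hm
      have : (0 : ℝ) ≤ m * α := by positivity
      linarith
  · push Not at hy
    apply key (2 ^ R - q) (by omega)
    · intro m _ hm
      have : (m : ℝ) ≤ 2 ^ R := by exact_mod_cast (by omega : m ≤ 2 ^ R)
      nlinarith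
    · intro m hm _
      have : (2 : ℝ) ^ R ≤ m + q := by exact_mod_cast (by omega : 2 ^ R ≤ m + q)
      nlinarith

end Pool.Agent.Helper352.Bed
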