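import Pool.Agent.Helper352.Bed.Seq
import Pool.Agent.Helper352.Bed.Approx

namespace Pool.Agent.Helper352.Bed

open Finset

/-- merged sequence: `cc (2k) = ⌊2^k α⌋`, `cc (2k+1) = ⌊2^k β⌋` -/
noncomputable def cc (α β : ℝ) (i : ℕ) : ℕ :=
  ⌊(2 : ℝ) ^ (i / 2) * (if i % 2 = 0 then α else β)⌋₊

theorem cc_even (α β : ℝ) (k : ℕ) : cc α β (2 * k) = ⌊(2 : ℝ) ^ k * α⌋₊ := by
  unfold cc
  rw [show 2 * k / 2 = k by omega, if_pos (by omega)]

theorem cc_odd (α β : ℝ) (k : ℕ) : cc α β (2 * k + 1) = ⌊(2 : ℝ) ^ k * β⌋₊ := by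
  unfold cc
  rw [show (2 * k + 1) / 2 = k by omega, if_neg (by omega)]

theorem floor_dbl {x : ℝ} (hx : 0 ≤ x) : 2 * ⌊x⌋₊ ≤ ⌊2 * x⌋₊ ∧ ⌊2 * x⌋₊ ≤ 2 * ⌊x⌋₊ + 1 := by
  constructor
  · apply Nat.le_floor
    push_cast
    have := Nat.floor_le hx
    linarith
  · have h1 := Nat.lt_floor_add_one x
    have h2 : ⌊2 * x⌋₊ < 2 * ⌊x⌋₊ + 2 := by
      rw [Nat.floor_lt (by positivity)]
      push_cast
      linarith
    omega

theorem floor_lt_floor {x y : ℝ} (hx : 0 ≤ x) (h : x + 1 ≤ y) : ⌊x⌋₊ < ⌊y⌋₊ := by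
  have : ⌊x⌋₊ + 1 ≤ ⌊y⌋₊ := by
    apply Nat.le_floor
    push_cast
    have := Nat.floor_le hx
    linarith
  omega

theorem seq_cc {α β : ℝ} (h1 : 1 ≤ α) (h2 : α + 1 ≤ β) (h3 : β + 1 ≤ 2 * α) : Seq (cc α β) where
  mono := by
    apply strictMono_nat_of_lt_succ
    intro i
    rcases Nat.even_or_odd' i with ⟨k, rfl | rfl⟩
    · rw [cc_even, cc_odd]
      apply floor_lt_floor (by positivity)
      have : (1 : ℝ) ≤ 2 ^ k := one_le_pow₀ (by norm_num)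
      nlinarith
    · rw [show 2 * k + 1 + 1 = 2 * (k + 1) by ring, cc_even, cc_odd]
      apply floor_lt_floor (by have : 0 < β := by linarith
                               positivity)
      have : (1 : ℝ) ≤ 2 ^ k := one_le_pow₀ (by norm_num)
      rw [pow_succ]
      nlinarith
  pos := by
    have := cc_even α β 0
    simp only [mul_zero, pow_zero, one_mul] at this
    rw [this]
    exact Nat.floor_pos.2 h1
  lo := by
    intro i
    have hβ : 0 < β := by linarith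
    have hα : 0 < α := by linarith
    unfold cc
    rw [show (i + 2) / 2 = i / 2 + 1 by omega, show (i + 2) % 2 = i % 2 by omega]
    have := (floor_dbl (x := (2 : ℝ) ^ (i / 2) * (if i % 2 = 0 then α else β))
      (by split_ifs <;> positivity)).1
    rw [pow_succ, mul_comm ((2 : ℝ) ^ (i / 2)) 2, mul_assoc]
    exact this
  hi := by
    intro i
    have hβ : 0 < β := by linarith
    have hα : 0 < α := by linarith
    unfold cc
    rw [show (i + 2) / 2 = i / 2 + 1 by omega, show (i + 2) % 2 = i % 2 by omega]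
    have := (floor_dbl (x := (2 : ℝ) ^ (i / 2) * (if i % 2 = 0 then α else β))
      (by split_ifs <;> positivity)).2
    rw [pow_succ, mul_comm ((2 : ℝ) ^ (i / 2)) 2, mul_assoc]
    exact this

theorem pow_of_dbl (a : ℕ → ℕ) {r P : ℕ} (h : ∀ k, r ≤ k → k < P → a (k + 1) = 2 * a k)
    (hrP : r ≤ P) : a P = 2 ^ (P - r) * a r := by
  obtain ⟨d, rfl⟩ := Nat.exists_eq_add_of_le hrP
  induction d with
  | zero => simp
  | succ d ih =>
    have h1 := ih (fun k hk hk2 => h k hk (by omega)) (by omega)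
    have h2 := h (r + d) (by omega) (by omega)
    rw [show r + (d + 1) = r + d + 1 by ring, h2, h1,
      show r + d + 1 - r = (r + d - r) + 1 by omega, pow_succ]
    ring

theorem err_small {α : ℝ} (hα : 0 < α) {r P : ℕ} (hrP : r ≤ P)
    (h : ∀ k, r ≤ k → k < P → ⌊(2 : ℝ) ^ (k + 1) * α⌋₊ = 2 * ⌊(2 : ℝ) ^ k * α⌋₊) :
    0 ≤ 2 ^ r * α - ⌊(2 : ℝ) ^ r * α⌋₊ ∧
      2 ^ r * α - ⌊(2 : ℝ) ^ r * α⌋₊ < 2 ^ r / 2 ^ P := by
  have h1 := pow_of_dbl (fun k => ⌊(2 : ℝ) ^ k * α⌋₊) h hrP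
  have h2 := Nat.floor_le (a := (2 : ℝ) ^ r * α) (by positivity)
  refine ⟨by linarith, ?_⟩
  have h3 := Nat.lt_floor_add_one ((2 : ℝ) ^ P * α)
  rw [h1] at h3
  push_cast at h3
  rw [lt_div_iff₀ (by positivity)]
  have h4 : (2 : ℝ) ^ P = 2 ^ (P - r) * 2 ^ r := by
    rw [← pow_add]; congr 1; omega
  rw [h4] at h3 ⊢
  have h5 : (0 : ℝ) < 2 ^ r := by positivity
  nlinarith

theorem exists_onebit {α β : ℝ} (hα : 1 ≤ α) (hαβ : α < β) {q : ℕ} {u : ℤ} (hq : 0 < q)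
    (hcop : IsCoprime u (q : ℤ)) (hδ : |α / β - u / q| ≤ 1 / (q : ℝ) ^ 2) {r P : ℕ}
    (hrP : r ≤ P) (h1 : 2 * (2 ^ r * β) < q) (h2 : 2 * (q * 2 ^ r) < (2 : ℝ) ^ P) :
    ∃ k, r ≤ k ∧ k < P ∧ ∃ e < 2, cc α β (2 * k + e + 2) = 2 * cc α β (2 * k + e) + 1 := by
  have hβ : 0 < β := by linarith
  have hα0 : 0 < α := by linarith
  have hq' : (0 : ℝ) < q := by exact_mod_cast hq
  by_contra hc
  push Not at hc
  have hA : ∀ k, r ≤ k → k < P → ⌊(2 : ℝ) ^ (k + 1) * α⌋₊ = 2 * ⌊(2 : ℝ) ^ k * α⌋₊ := by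
    intro k hk hk2
    have h3 := hc k hk hk2 0 (by norm_num)
    rw [add_zero, show 2 * k + 2 = 2 * (k + 1) by ring, cc_even, cc_even] at h3
    have h4 := floor_dbl (x := (2 : ℝ) ^ k * α) (by positivity)
    have h5 : (2 : ℝ) ^ (k + 1) * α = 2 * (2 ^ k * α) := by ring
    rw [h5] at h3 ⊢
    omega
  have hB : ∀ k, r ≤ k → k < P → ⌊(2 : ℝ) ^ (k + 1) * β⌋₊ = 2 * ⌊(2 : ℝ) ^ k * β⌋₊ := by
    intro k hk hk2
    have h3 := hc k hk hk2 1 (by norm_num)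
    rw [show 2 * k + 1 + 2 = 2 * (k + 1) + 1 by ring, cc_odd, cc_odd] at h3
    have h4 := floor_dbl (x := (2 : ℝ) ^ k * β) (by positivity)
    have h5 : (2 : ℝ) ^ (k + 1) * β = 2 * (2 ^ k * β) := by ring
    rw [h5] at h3 ⊢
    omega
  obtain ⟨a1, a2⟩ := err_small hα0 hrP hA
  obtain ⟨b1, b2⟩ := err_small hβ hrP hB
  set a := ⌊(2 : ℝ) ^ r * α⌋₊ with ha
  set b := ⌊(2 : ℝ) ^ r * β⌋₊ with hb
  set ε : ℝ := 2 ^ r / 2 ^ P with hε
  have hεpos : 0 < ε := by positivity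
  set δ : ℝ := α / β - u / q with hδ'
  have hqε : q * ε < 1 / 2 := by
    rw [hε, mul_div_assoc', div_lt_iff₀ (by positivity)]
    linarith
  -- Z = u b - q a
  have hu : (u : ℝ) = q * (α / β - δ) := by
    rw [hδ']
    field_simp
    ring
  have hZ : (u : ℝ) * b - q * a =
      q * ((2 ^ r * α - a) - (α / β) * (2 ^ r * β - b)) - q * δ * b := by
    rw [hu]
    field_simp
    ring
  have hθ1 : α / β < 1 := by rw [div_lt_one hβ]; exact hαβ
  have hθ0 : 0 < α / β := by positivity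
  have hm1 : (α / β) * (2 ^ r * β - b) < ε := by
    calc (α / β) * (2 ^ r * β - b) ≤ 1 * (2 ^ r * β - b) :=
          mul_le_mul_of_nonneg_right hθ1.le b1
      _ < ε := by rw [one_mul]; exact b2
  have hm0 : 0 ≤ (α / β) * (2 ^ r * β - b) := mul_nonneg hθ0.le b1
  have hb' : (b : ℝ) ≤ 2 ^ r * β := by linarith
  have hδb : |q * δ * b| < 1 / 2 := by
    rw [abs_mul, abs_mul, abs_of_pos hq', abs_of_nonneg (by positivity : (0 : ℝ) ≤ b)]
    have e1 : (q : ℝ) * |δ| ≤ 1 / q := by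
      calc (q : ℝ) * |δ| ≤ q * (1 / (q : ℝ) ^ 2) := mul_le_mul_of_nonneg_left hδ hq'.le
        _ = 1 / q := by field_simp
    calc (q : ℝ) * |δ| * b ≤ 1 / q * b := mul_le_mul_of_nonneg_right e1 (by positivity)
      _ ≤ 1 / q * (2 ^ r * β) := mul_le_mul_of_nonneg_left hb' (by positivity)
      _ < 1 / 2 := by
        rw [div_mul_eq_mul_div, one_mul, div_lt_iff₀ hq']
        linarith
  rw [abs_lt] at hδb
  have hZ1 : |(u : ℝ) * b - q * a| < 1 := by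
    rw [hZ, abs_lt]
    constructor
    · nlinarith
    · nlinarith
  have hZ2 : u * b - q * a = 0 := by
    rw [← Int.abs_lt_one_iff]
    have : ((|u * b - q * a| : ℤ) : ℝ) < 1 := by
      push_cast
      exact hZ1
    exact_mod_cast this
  have hdvd : (q : ℤ) ∣ b := by
    have h5 : (q : ℤ) ∣ u * b := ⟨a, by linarith⟩
    exact (hcop.symm.dvd_of_dvd_mul_left h5)
  have hdvd' : q ∣ b := by exact_mod_cast hdvd
  have hbpos : 0 < b := by
    rw [hb]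
    apply Nat.floor_pos.2
    have : (1 : ℝ) ≤ 2 ^ r := one_le_pow₀ (by norm_num)
    nlinarith
  have h6 : (q : ℝ) ≤ b := by exact_mod_cast Nat.le_of_dvd hbpos hdvd'
  linarith

theorem exists_bits (R : ℕ) : ∀ m < 2 ^ R, ∃ T ⊆ range R, ∑ j ∈ T, 2 ^ j = m := by
  induction R with
  | zero =>
    intro m hm
    exact ⟨∅, by simp, by simp; omega⟩
  | succ R ih =>
    intro m hm
    by_cases h : m < 2 ^ R
    · obtain ⟨T, hT, h1⟩ := ih m h
      exact ⟨T, hT.trans (range_subset_range.2 (Nat.le_succ R)), h1⟩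
    · push Not at h
      rw [pow_succ] at hm
      obtain ⟨T, hT, h1⟩ := ih (m - 2 ^ R) (by omega)
      have hR : R ∉ T := fun hR => by simpa using hT hR
      refine ⟨insert R T, ?_, ?_⟩
      · intro i hi
        rw [mem_insert] at hi
        rcases hi with rfl | hi
        · simp
        · have := hT hi
          rw [mem_range] at *
          omega
      · rw [sum_insert hR]; omega

theorem bits_floor {α : ℝ} (hα : 0 < α) (K R m : ℕ) (hm : m < 2 ^ R) :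
    ∃ T ⊆ range R, ((∑ j ∈ T, ⌊(2 : ℝ) ^ (K + j) * α⌋₊ : ℕ) : ℝ) ≤ 2 ^ K * (m * α) ∧
      2 ^ K * (m * α) - R ≤ ((∑ j ∈ T, ⌊(2 : ℝ) ^ (K + j) * α⌋₊ : ℕ) : ℝ) := by
  obtain ⟨T, hT, h1⟩ := exists_bits R m hm
  have h2 : ∑ j ∈ T, (2 : ℝ) ^ (K + j) * α = 2 ^ K * (m * α) := by
    rw [← h1]
    push_cast
    rw [sum_mul, mul_sum]
    apply sum_congr rfl
    intro j _
    rw [pow_add]; ring
  refine ⟨T, hT, ?_, ?_⟩
  · push_cast
    rw [← h2]
    apply sum_le_sum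
    intro j _
    exact Nat.floor_le (by positivity)
  · push_cast
    rw [← h2]
    have h3 : ∑ j ∈ T, ((2 : ℝ) ^ (K + j) * α - 1) ≤ ∑ j ∈ T, ((⌊(2 : ℝ) ^ (K + j) * α⌋₊ : ℕ) : ℝ) := by
      apply sum_le_sum
      intro j _
      have := Nat.lt_floor_add_one ((2 : ℝ) ^ (K + j) * α)
      linarith
    rw [sum_sub_distrib] at h3
    have h4 : ∑ j ∈ T, (1 : ℝ) ≤ R := by
      rw [sum_const, nsmul_eq_mul, mul_one]
      have := card_le_card hT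
      rw [card_range] at this
      exact_mod_cast this
    linarith

theorem bottom {α β : ℝ} (hα : 0 < α) (hβ : 0 < β) (K R m n : ℕ) (hm : m < 2 ^ R)
    (hn : n < 2 ^ R) :
    ∃ s : ℕ, SS (cc α β) (fun i => 2 * K ≤ i ∧ i < 2 * (K + R)) s ∧
      (s : ℝ) ≤ 2 ^ K * (m * α + n * β) ∧ 2 ^ K * (m * α + n * β) - 2 * R ≤ s := by
  obtain ⟨T1, hT1, h1, h2⟩ := bits_floor hα K R m hm
  obtain ⟨T2, hT2, h3, h4⟩ := bits_floor hβ K R n hn
  have s1 : SS (cc α β) (fun i => (2 * K ≤ i ∧ i < 2 * (K + R)) ∧ i % 2 = 0)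
      (∑ j ∈ T1, ⌊(2 : ℝ) ^ (K + j) * α⌋₊) := by
    refine ⟨T1.image (fun j => 2 * (K + j)), ?_, ?_⟩
    · intro i hi
      rw [mem_image] at hi
      obtain ⟨j, hj, rfl⟩ := hi
      have := hT1 hj
      rw [mem_range] at this
      omega
    · rw [sum_image (by intro a _ b _ hab; simpa using hab)]
      apply sum_congr rfl
      intro j _
      rw [cc_even]
  have s2 : SS (cc α β) (fun i => (2 * K ≤ i ∧ i < 2 * (K + R)) ∧ i % 2 = 1)
      (∑ j ∈ T2, ⌊(2 : ℝ) ^ (K + j) * β⌋₊) := by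
    refine ⟨T2.image (fun j => 2 * (K + j) + 1), ?_, ?_⟩
    · intro i hi
      rw [mem_image] at hi
      obtain ⟨j, hj, rfl⟩ := hi
      have := hT2 hj
      rw [mem_range] at this
      omega
    · rw [sum_image (by intro a _ b _ hab; simpa using hab)]
      apply sum_congr rfl
      intro j _
      rw [cc_odd]
  refine ⟨_, (SS.add (fun i hi => by omega) s1 s2).mono (fun i hi => by omega), ?_, ?_⟩
  · push_cast at *
    linarith
  · push_cast at *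
    linarith

theorem dense {α β : ℝ} (h1 : 1 ≤ α) (h2 : α + 1 ≤ β) (h3 : β + 1 ≤ 2 * α) {q : ℕ} {u : ℤ}
    (hq : 3 ≤ q) (hcop : IsCoprime u (q : ℤ)) (hδ : |α / β - u / q| ≤ 1 / (q : ℝ) ^ 2) {R : ℕ}
    (hR : 4 * q ≤ 2 ^ R) (K D : ℕ) (hD : 2 ^ K * (3 * β / q) + 2 * R < D) :
    ∃ X0, ∀ x ≥ X0, ∃ s, SS (cc α β) (fun i => 2 * K ≤ i) s ∧ s ≤ x ∧ x < s + D := by
  have hα : 0 < α := by linarith
  have hβ : 0 < β := by linarith
  have hS := seq_cc h1 h2 h3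
  have hK : (0 : ℝ) < 2 ^ K := by positivity
  have hK1 : (1 : ℝ) ≤ 2 ^ K := one_le_pow₀ (by norm_num)
  have hq' : (3 : ℝ) ≤ q := by exact_mod_cast hq
  refine ⟨⌈(2 : ℝ) ^ K * (q * α)⌉₊, fun x hx => ?_⟩
  set X0 := ⌈(2 : ℝ) ^ K * (q * α)⌉₊ with hX0
  obtain ⟨S, hS1, hS2, hS3⟩ := hS.gaps (2 * (K + R)) (x - X0)
  set s1 := ∑ i ∈ S, cc α β i with hs1
  rw [cc_odd] at hS3
  have e1 : (X0 : ℝ) ≤ (x : ℝ) - s1 := by
    have : X0 + s1 ≤ x := by omega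
    have : (X0 : ℝ) + s1 ≤ x := by exact_mod_cast this
    linarith
  have e2 : (x : ℝ) - s1 ≤ X0 + 2 ^ (K + R) * β := by
    have h4 : x ≤ s1 + ⌊(2 : ℝ) ^ (K + R) * β⌋₊ + X0 := by omega
    have h5 : (x : ℝ) ≤ s1 + ⌊(2 : ℝ) ^ (K + R) * β⌋₊ + X0 := by exact_mod_cast h4
    have h6 := Nat.floor_le (a := (2 : ℝ) ^ (K + R) * β) (by positivity)
    linarith
  have e3 : (2 : ℝ) ^ K * (q * α) ≤ X0 := Nat.le_ceil _
  have e4 : (X0 : ℝ) < 2 ^ K * (q * α) + 1 := Nat.ceil_lt_add_one (by positivity)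
  set y : ℝ := ((x : ℝ) - s1) / 2 ^ K with hy
  have hy0 : 2 ^ K * y = (x : ℝ) - s1 := by rw [hy]; field_simp
  have hy1 : q * α ≤ y := by
    rw [hy, le_div_iff₀ hK]; linarith
  have hy2 : y ≤ 2 ^ R * β + 2 * q * α := by
    rw [hy, div_le_iff₀ hK]
    rw [pow_add] at e2
    have e5 : (1 : ℝ) ≤ 2 ^ K * (q * α) := by
      have : (1 : ℝ) ≤ q * α := by nlinarith
      nlinarith
    nlinarith
  obtain ⟨m, n, hm, hn, h4, h5⟩ := exists_mn hα (by linarith) hq hcop hδ hR hy1 hy2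
  obtain ⟨s2, hs2, h6, h7⟩ := bottom hα hβ K R m n hm hn
  have h8 : 2 ^ K * (m * α + n * β) ≤ 2 ^ K * y := mul_le_mul_of_nonneg_left h4 hK.le
  have h9 : 2 ^ K * y ≤ 2 ^ K * (m * α + n * β + 3 * β / q) := mul_le_mul_of_nonneg_left h5 hK.le
  rw [mul_add] at h9
  rw [hy0] at h8 h9
  have hSS : SS (cc α β) (fun i => 2 * (K + R) ≤ i) s1 := ⟨S, hS1, rfl⟩
  refine ⟨s2 + s1, (SS.add (fun i hi => by omega) hs2 hSS).mono (fun i hi => by omega), ?_, ?_⟩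
  · have : (s2 : ℝ) + s1 ≤ x := by linarith
    exact_mod_cast this
  · have : (x : ℝ) < s2 + s1 + D := by linarith
    exact_mod_cast this

theorem lin_exp (C : ℕ) : ∀ ρ ≥ C + 6, 8 * ρ + C ≤ 2 ^ ρ := by
  intro ρ hρ
  obtain ⟨t, rfl⟩ := Nat.exists_eq_add_of_le hρ
  have h1 : C + t < 2 ^ (C + t) := Nat.lt_two_pow_self
  have h2 : 2 ^ (C + 6 + t) = 64 * 2 ^ (C + t) := by
    rw [show C + 6 + t = 6 + (C + t) by ring, pow_add]; norm_num
  rw [h2]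
  omega

theorem sum_cc_le {α β : ℝ} (hα : 0 < α) (hβ : 0 < β) (p : ℕ) :
    ((∑ i ∈ range (2 * p), cc α β i : ℕ) : ℝ) ≤ (2 ^ p - 1) * (α + β) := by
  induction p with
  | zero => simp
  | succ p ih =>
    rw [show 2 * (p + 1) = 2 * p + 1 + 1 by ring, sum_range_succ, sum_range_succ, cc_even, cc_odd]
    push_cast
    push_cast at ih
    have h1 := Nat.floor_le (a := (2 : ℝ) ^ p * α) (by positivity)
    have h2 := Nat.floor_le (a := (2 : ℝ) ^ p * β) (by positivity)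
    rw [pow_succ]
    nlinarith

theorem key {α β : ℝ} (h1 : 1 ≤ α) (h2 : α + 1 ≤ β) (h3 : β + 1 ≤ 2 * α)
    (hirr : Irrational (α / β)) (W : ℕ) :
    ∃ M K t D X0 : ℕ, SS (cc α β) (fun i => M ≤ i ∧ i < K) t ∧
      SS (cc α β) (fun i => M ≤ i ∧ i < K) (t + 1) ∧
      (∀ x ≥ X0, ∃ s, SS (cc α β) (fun i => K ≤ i) s ∧ s ≤ x ∧ x < s + D) ∧ M ≤ K ∧
      D + 2 * W ≤ cc α β M := by
  have hα : 0 < α := by linarith
  have hβ : 0 < β := by linarith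
  have hS := seq_cc h1 h2 h3
  obtain ⟨c0, hc0⟩ := pow_unbounded_of_one_lt (α + β) (one_lt_two : (1 : ℝ) < 2)
  obtain ⟨C1, hC1⟩ := pow_unbounded_of_one_lt (96 * β * 2 ^ (c0 + 1)) (one_lt_two : (1 : ℝ) < 2)
  set C2 := 2 * c0 + 2 * C1 + 5 with hC2
  set C := 6 + 4 * C2 + 4 * W with hC
  set R0 := 2 * (C + 6) + C2 + 2 with hR0
  obtain ⟨q, u, hqB, hcop, hδ⟩ := exists_good hirr (2 ^ R0)
  have hq0 : q ≠ 0 := (Nat.zero_lt_of_lt hqB).ne'
  set L := Nat.log 2 q with hL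
  have hL1 : 2 ^ L ≤ q := Nat.pow_log_le_self 2 hq0
  have hL2 : q < 2 ^ (L + 1) := Nat.lt_pow_succ_log_self one_lt_two q
  have hR0L : R0 ≤ L := by
    by_contra hc
    push Not at hc
    have : 2 ^ (L + 1) ≤ 2 ^ R0 := Nat.pow_le_pow_right (by norm_num) (by omega)
    omega
  set R := L + 3 with hR
  have hRq : 4 * q ≤ 2 ^ R := by
    have : 2 ^ R = 4 * 2 ^ (L + 1) := by rw [hR]; ring
    omega
  have hRq' : 2 ^ R ≤ 8 * q := by
    have : 2 ^ R = 8 * 2 ^ L := by rw [hR]; ring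
    omega
  set ρ := (R - C2) / 2 with hρ
  have hρ1 : 2 * ρ + C2 ≤ R := by omega
  have hρ2 : R ≤ 2 * ρ + C2 + 1 := by omega
  have hρ3 : C + 6 ≤ ρ := by omega
  have hρ4 : 2 + 4 * R + 4 * W ≤ 2 ^ ρ := by
    have := lin_exp C ρ hρ3
    omega
  have hq3 : 3 ≤ q := by
    have : 2 ^ 2 ≤ 2 ^ R0 := Nat.pow_le_pow_right (by norm_num) (by omega)
    omega
  have hqR : (q : ℝ) * 4 ≤ 2 ^ R := by exact_mod_cast (by omega : q * 4 ≤ 2 ^ R)
  have hqR' : (2 : ℝ) ^ R ≤ 8 * q := by exact_mod_cast hRq'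
  have hqL : (2 : ℝ) ^ L ≤ q := by exact_mod_cast hL1
  have hqL2 : (q : ℝ) < 2 ^ (L + 1) := by exact_mod_cast hL2
  set r := 2 * ρ + c0 with hr
  set P := 2 * (R - C1) with hP
  have hrP : r ≤ P := by omega
  have hβc : β ≤ 2 ^ c0 := by linarith
  have hO1 : 2 * (2 ^ r * β) < q := by
    calc 2 * (2 ^ r * β) ≤ 2 * (2 ^ r * 2 ^ c0) := by gcongr
      _ = 2 ^ (r + c0 + 1) := by ring
      _ < 2 ^ L := pow_lt_pow_right₀ (by norm_num) (by omega)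
      _ ≤ q := hqL
  have hO2 : 2 * (q * 2 ^ r) < (2 : ℝ) ^ P := by
    calc 2 * (q * 2 ^ r) < 2 * (2 ^ (L + 1) * (2 : ℝ) ^ r) := by gcongr
      _ = 2 ^ (L + 2 + r) := by ring
      _ ≤ 2 ^ P := pow_le_pow_right₀ (by norm_num) (by omega)
  obtain ⟨k, hk1, hk2, e, he, hbit⟩ := exists_onebit h1 (by linarith) (by omega) hcop hδ hrP hO1 hO2
  set J := (k + 1 - c0) / 2 with hJ
  have hJ1 : ρ ≤ J := by omega
  have hJ2 : k + 1 ≤ 2 * J + c0 + 1 := by omega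
  have hJ3 : 2 * J + c0 ≤ k + 1 := by omega
  have hJ4 : J + C1 ≤ R := by omega
  -- pigeonhole
  have hpig : ∑ i ∈ Ico (2 * J) (2 * (k + 1)), cc α β i + 1 <
      2 ^ (Ico (2 * J) (2 * (k + 1))).card := by
    rw [Nat.card_Ico]
    have e1 : ∑ i ∈ Ico (2 * J) (2 * (k + 1)), cc α β i ≤ ∑ i ∈ range (2 * (k + 1)), cc α β i := by
      apply sum_le_sum_of_subset
      intro i hi
      rw [mem_Ico] at hi
      rw [mem_range]; exact hi.2
    have e2 := sum_cc_le hα hβ (k + 1)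
    have e3 : ((∑ i ∈ Ico (2 * J) (2 * (k + 1)), cc α β i : ℕ) : ℝ) ≤
        (2 ^ (k + 1) - 1) * (α + β) := le_trans (by exact_mod_cast e1) e2
    have e4 : (2 : ℝ) ^ (k + 1) * 2 ^ c0 ≤ 2 ^ (2 * (k + 1) - 2 * J) := by
      rw [← pow_add]
      exact pow_le_pow_right₀ (by norm_num) (by omega)
    have e5 : (2 : ℝ) ^ (k + 1) * (α + β) ≤ 2 ^ (k + 1) * 2 ^ c0 := by
      gcongr
    have e6 : ((∑ i ∈ Ico (2 * J) (2 * (k + 1)), cc α β i : ℕ) : ℝ) + 1 <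
        2 ^ (2 * (k + 1) - 2 * J) := by
      nlinarith
    exact_mod_cast e6
  obtain ⟨S, T, hST, hne, hsum, hmem⟩ := pigeon (cc α β) _ hpig
  obtain ⟨t, ht1, ht2⟩ := hS.vec S T hST hne hsum (2 * k + e) hbit (2 * J) (by
    intro i hi
    have := hmem i hi
    rw [mem_Ico] at this
    omega)
  set D := ⌊(2 : ℝ) ^ (k + 2) * (3 * β / q) + 2 * R⌋₊ + 1 with hD
  obtain ⟨X0, hX0⟩ := dense h1 h2 h3 hq3 hcop hδ hRq (k + 2) D (by
    rw [hD]; push_cast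
    exact Nat.lt_floor_add_one _)
  refine ⟨2 * J, 2 * (k + 2), t, D, X0, ht1.mono (fun i hi => by omega),
    ht2.mono (fun i hi => by omega), hX0, by omega, ?_⟩
  -- final inequality
  rw [cc_even]
  apply Nat.le_floor
  have hq' : (0 : ℝ) < q := by exact_mod_cast (by omega : 0 < q)
  have f1 : (D : ℝ) ≤ (2 : ℝ) ^ (k + 2) * (3 * β / q) + 2 * R + 1 := by
    rw [hD]; push_cast
    have := Nat.floor_le (a := (2 : ℝ) ^ (k + 2) * (3 * β / q) + 2 * R) (by positivity)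
    linarith
  have f2 : 12 * β * 2 ^ (c0 + 1) * 2 ^ J ≤ q := by
    have g1 : 96 * β * 2 ^ (c0 + 1) * 2 ^ J ≤ 2 ^ C1 * 2 ^ J := by
      gcongr
    have g2 : (2 : ℝ) ^ C1 * 2 ^ J ≤ 2 ^ R := by
      rw [← pow_add]
      exact pow_le_pow_right₀ (by norm_num) (by omega)
    linarith
  have f3 : (2 : ℝ) ^ (k + 2) * (3 * β / q) ≤ 2 ^ J / 2 := by
    have g1 : (2 : ℝ) ^ (k + 2) ≤ 2 * (2 ^ J * 2 ^ J * 2 ^ (c0 + 1)) := by
      rw [← pow_add, ← pow_add, ← pow_succ']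
      exact pow_le_pow_right₀ (by norm_num) (by omega)
    calc (2 : ℝ) ^ (k + 2) * (3 * β / q) ≤ 2 * (2 ^ J * 2 ^ J * 2 ^ (c0 + 1)) * (3 * β / q) := by
          gcongr
      _ = (12 * β * 2 ^ (c0 + 1) * 2 ^ J) * 2 ^ J / (2 * q) := by ring
      _ ≤ q * 2 ^ J / (2 * q) := by gcongr
      _ = 2 ^ J / 2 := by field_simp
  have f4 : (2 : ℝ) + 4 * R + 4 * W ≤ 2 ^ J := by
    have g1 : (2 : ℝ) + 4 * R + 4 * W ≤ 2 ^ ρ := by exact_mod_cast hρ4
    exact g1.trans (pow_le_pow_right₀ (by norm_num) hJ1)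
  push_cast
  have f5 : (2 : ℝ) ^ J * 1 ≤ 2 ^ J * α := by gcongr
  linarith

theorem complete_cc {α β : ℝ} (h1 : 1 ≤ α) (h2 : α + 1 ≤ β) (h3 : β + 1 ≤ 2 * α)
    (hirr : Irrational (α / β)) :
    ∃ N0, ∀ n ≥ N0, SS (cc α β) (fun _ => True) n :=
  (seq_cc h1 h2 h3).complete_of_vec (key h1 h2 h3 hirr)

end Pool.Agent.Helper352.Bed
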