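import Mathlib

namespace Pool.Agent.Helper352.Bed

open Finset

/-- greedy algorithm -/
theorem greedy_aux (f : ℕ → ℕ) (C : ℕ)
    (hf : ∀ n, f n ≤ C + ∑ i ∈ range n, f i) (n : ℕ) :
    ∀ x, x < C + ∑ i ∈ range n, f i →
      ∃ S : Finset ℕ, S ⊆ range n ∧ ∑ i ∈ S, f i ≤ x ∧ x < ∑ i ∈ S, f i + C := by
  induction n with
  | zero =>
    intro x hx
    exact ⟨∅, by simp, by simp, by simpa using hx⟩
  | succ n ih =>
    intro x hx
    rw [sum_range_succ] at hx
    by_cases h : x < C + ∑ i ∈ range n, f i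
    · obtain ⟨S, hS, h1, h2⟩ := ih x h
      exact ⟨S, hS.trans (range_subset_range.2 (Nat.le_succ n)), h1, h2⟩
    · push Not at h
      have h3 := hf n
      obtain ⟨S, hS, h1, h2⟩ := ih (x - f n) (by omega)
      have hn : n ∉ S := fun hn => by simpa using hS hn
      refine ⟨insert n S, ?_, ?_, ?_⟩
      · intro i hi
        rw [mem_insert] at hi
        rcases hi with rfl | hi
        · simp
        · have := hS hi
          rw [mem_range] at *
          omega
      · rw [sum_insert hn]; omega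
      · rw [sum_insert hn]; omega

structure Seq (c : ℕ → ℕ) : Prop where
  mono : StrictMono c
  pos : 0 < c 0
  lo : ∀ i, 2 * c i ≤ c (i + 2)
  hi : ∀ i, c (i + 2) ≤ 2 * c i + 1

variable {c : ℕ → ℕ}

theorem Seq.pos' (h : Seq c) (i : ℕ) : 0 < c i :=
  lt_of_lt_of_le h.pos (h.mono.monotone (Nat.zero_le i))

theorem Seq.le_sum (h : Seq c) (M : ℕ) (n : ℕ) :
    c (M + n) ≤ c (M + 1) + ∑ i ∈ range n, c (M + i) := by
  induction n using Nat.strong_induction_on with
  | _ n ih =>
    match n with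
    | 0 => simpa using h.mono.monotone (by omega : M ≤ M + 1)
    | 1 => simp
    | n + 2 =>
      have h1 := ih n (by omega)
      have h2 := h.hi (M + n)
      have h3 := h.pos' (M + (n + 1))
      rw [sum_range_succ, sum_range_succ]
      have h4 : M + (n + 2) = M + n + 2 := by ring
      rw [h4]
      omega

theorem Seq.gaps (h : Seq c) (M x : ℕ) :
    ∃ S : Finset ℕ, (∀ i ∈ S, M ≤ i) ∧ ∑ i ∈ S, c i ≤ x ∧ x < ∑ i ∈ S, c i + c (M + 1) := by
  have h1 : x < c (M + 1) + ∑ i ∈ range (x + 1), c (M + i) := by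
    have : ∑ i ∈ range (x + 1), 1 ≤ ∑ i ∈ range (x + 1), c (M + i) :=
      sum_le_sum fun i _ => h.pos' _
    simp at this
    omega
  obtain ⟨S, -, h2, h3⟩ := greedy_aux (fun i => c (M + i)) (c (M + 1)) (h.le_sum M) (x + 1) x h1
  refine ⟨S.image (fun i => M + i), ?_, ?_, ?_⟩
  · intro i hi
    rw [mem_image] at hi
    obtain ⟨j, -, rfl⟩ := hi
    omega
  · rw [sum_image (by intro a _ b _ hab; simpa using hab)]
    exact h2
  · rw [sum_image (by intro a _ b _ hab; simpa using hab)]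
    exact h3

/-- subset sums -/
def SS (c : ℕ → ℕ) (P : ℕ → Prop) (s : ℕ) : Prop :=
  ∃ S : Finset ℕ, (∀ i ∈ S, P i) ∧ ∑ i ∈ S, c i = s

theorem SS.mono {P Q : ℕ → Prop} (hPQ : ∀ i, P i → Q i) {s : ℕ} (h : SS c P s) : SS c Q s := by
  obtain ⟨S, h1, h2⟩ := h
  exact ⟨S, fun i hi => hPQ i (h1 i hi), h2⟩

theorem SS.add {P Q : ℕ → Prop} (hPQ : ∀ i, P i → ¬ Q i) {s t : ℕ} (h : SS c P s)
    (h' : SS c Q t) : SS c (fun i => P i ∨ Q i) (s + t) := by
  obtain ⟨S, h1, h2⟩ := h
  obtain ⟨T, h3, h4⟩ := h'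
  refine ⟨S ∪ T, ?_, ?_⟩
  · intro i hi
    rw [mem_union] at hi
    rcases hi with hi | hi
    · exact Or.inl (h1 i hi)
    · exact Or.inr (h3 i hi)
  · rw [sum_union, h2, h4]
    rw [disjoint_left]
    intro i hi hi'
    exact hPQ i (h1 i hi) (h3 i hi')

/-- If close pairs `q, q+1` of high sums are available, then the sequence is complete. -/
theorem Seq.complete_of_pairs (h : Seq c)
    (hp : ∀ W : ℕ, ∃ M N1 : ℕ, ∀ N ≥ N1, ∃ q, SS c (fun i => M ≤ i) q ∧
      SS c (fun i => M ≤ i) (q + 1) ∧ q + W ≤ N ∧ N + W < q + c M) :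
    ∃ N0, ∀ n ≥ N0, SS c (fun _ => True) n := by
  classical
  have hex : ∃ g, ∃ N0, ∀ x ≥ N0, ∃ s, SS c (fun _ => True) s ∧ x ≤ s ∧ s < x + g := by
    refine ⟨c 1, 0, fun x _ => ?_⟩
    obtain ⟨S, -, h1, h2⟩ := h.gaps 0 (x + c 1 - 1)
    have h3 := h.pos' 1
    refine ⟨∑ i ∈ S, c i, ⟨S, fun _ _ => trivial, rfl⟩, ?_, ?_⟩
    · simp only [zero_add] at h2; omega
    · omega
  obtain ⟨N0, hN0⟩ := Nat.find_spec hex
  set g := Nat.find hex with hg
  have hg0 : g ≠ 0 := by
    intro h0
    obtain ⟨s, -, h1, h2⟩ := hN0 N0 le_rfl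
    omega
  by_cases hg1 : g = 1
  · refine ⟨N0, fun n hn => ?_⟩
    obtain ⟨s, hs, h1, h2⟩ := hN0 n hn
    have : s = n := by omega
    rwa [this] at hs
  exfalso
  have hmin := Nat.find_min hex (m := g - 1) (by omega)
  push Not at hmin
  obtain ⟨M, N1, hM⟩ := hp (N0 + g + 1)
  obtain ⟨N, hN, hbad⟩ := hmin N1
  obtain ⟨q, hq, hq1, h1, h2⟩ := hM N hN
  -- window of g integers N - q - 1, ..., N - q + g - 2
  obtain ⟨s, hs, h3, h4⟩ := hN0 (N - q - 1) (by omega)
  have hs' : SS c (fun i => i < M) s := by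
    obtain ⟨S, -, hS⟩ := hs
    refine ⟨S, ?_, hS⟩
    intro i hi
    by_contra hc
    push Not at hc
    have h5 : c i ≤ s := by
      rw [← hS]
      exact single_le_sum (f := c) (fun _ _ => Nat.zero_le _) hi
    have h6 := h.mono.monotone hc
    omega
  by_cases h5 : s = N - q - 1
  · -- s + (q+1) = N
    have h6 := (SS.add (fun i hi => by omega) hs' hq1).mono (Q := fun _ => True)
      (fun _ _ => trivial)
    have h7 := hbad (s + (q + 1)) h6 (by omega)
    omega
  · have h6 := (SS.add (fun i hi => by omega) hs' hq).mono (Q := fun _ => True)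
      (fun _ _ => trivial)
    have h7 := hbad (s + q) h6 (by omega)
    omega

theorem Seq.complete_of_vec (h : Seq c)
    (hp : ∀ W : ℕ, ∃ M K t D X0 : ℕ, SS c (fun i => M ≤ i ∧ i < K) t ∧
      SS c (fun i => M ≤ i ∧ i < K) (t + 1) ∧
      (∀ x ≥ X0, ∃ s, SS c (fun i => K ≤ i) s ∧ s ≤ x ∧ x < s + D) ∧ M ≤ K ∧ D + 2 * W ≤ c M) :
    ∃ N0, ∀ n ≥ N0, SS c (fun _ => True) n := by
  apply h.complete_of_pairs
  intro W
  obtain ⟨M, K, t, D, X0, h1, h2, h3, hMK, h4⟩ := hp W
  refine ⟨M, X0 + W + t, fun N hN => ?_⟩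
  obtain ⟨s, hs, h5, h6⟩ := h3 (N - W - t) (by omega)
  refine ⟨t + s, ?_, ?_, by omega, by omega⟩
  · exact (SS.add (fun i hi => by omega) h1 hs).mono (fun i hi => by omega)
  · have := (SS.add (fun i hi => by omega) h2 hs).mono (Q := fun i => M ≤ i) (fun i hi => by omega)
    rwa [show t + s + 1 = t + 1 + s by ring]

/-- sums with fixed parity below `t` are `< c t` -/
theorem Seq.sum_lt (h : Seq c) (t : ℕ) :
    ∀ T : Finset ℕ, (∀ i ∈ T, i < t ∧ i % 2 = t % 2) → ∑ i ∈ T, c i < c t := by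
  induction t using Nat.strong_induction_on with
  | _ t ih =>
    intro T hT
    match t with
    | 0 =>
      have : T = ∅ := by
        apply eq_empty_of_forall_notMem
        intro i hi
        have := (hT i hi).1
        omega
      rw [this]; simpa using h.pos
    | 1 =>
      have : T = ∅ := by
        apply eq_empty_of_forall_notMem
        intro i hi
        have := (hT i hi)
        omega
      rw [this]; simpa using h.pos' 1
    | t + 2 =>
      have h1 := h.lo t
      by_cases htT : t ∈ T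
      · have h2 := ih t (by omega) (T.erase t) (by
          intro i hi
          rw [mem_erase] at hi
          have := hT i hi.2
          omega)
        have h3 := add_sum_erase T c htT
        omega
      · have h2 := ih t (by omega) T (by
          intro i hi
          have := hT i hi
          have h3 : i ≠ t := fun h3 => htT (h3 ▸ hi)
          omega)
        omega

/-- a relation cannot have a single parity -/
theorem Seq.no_single (h : Seq c) (e : ℕ) (S T : Finset ℕ) (hd : Disjoint S T)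
    (hST : (S ∪ T).Nonempty) (he : ∀ i ∈ S ∪ T, i % 2 = e) (hsum : ∑ i ∈ S, c i = ∑ i ∈ T, c i) :
    False := by
  wlog hmax : (S ∪ T).max' hST ∈ S generalizing S T
  · refine this T S hd.symm (by rwa [union_comm]) (by rwa [union_comm]) hsum.symm ?_
    have h1 := (S ∪ T).max'_mem hST
    rw [mem_union] at h1
    have h2 : (T ∪ S).max' (by rwa [union_comm]) = (S ∪ T).max' hST := by
      congr 1
      exact union_comm _ _
    rw [h2]
    tauto
  set t := (S ∪ T).max' hST with ht
  have h1 : ∑ i ∈ T, c i < c t := by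
    apply h.sum_lt
    intro i hi
    have h2 : i ∈ S ∪ T := mem_union_right _ hi
    have h3 := (S ∪ T).le_max' i h2
    have h4 : i ≠ t := by
      intro h4
      exact disjoint_left.1 hd hmax (h4 ▸ hi)
    have h5 := he i h2
    have h6 := he t (mem_union_left _ hmax)
    refine ⟨lt_of_le_of_ne h3 h4, by rw [h5, h6]⟩
  have h2 : c t ≤ ∑ i ∈ S, c i := single_le_sum (f := c) (fun _ _ => Nat.zero_le _) hmax
  omega

theorem Seq.vec_aux (h : Seq c) (S T : Finset ℕ) (hd : Disjoint S T)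
    (hsum : ∑ i ∈ S, c i = ∑ i ∈ T, c i) (p : ℕ) (hp : c (p + 2) = 2 * c p + 1)
    (t : ℕ) (ht : t ∈ S) (htp : t ≤ p) (htp2 : t % 2 = p % 2)
    (hmax : ∀ i ∈ S ∪ T, i % 2 = p % 2 → i ≤ t) (M : ℕ) (hM : ∀ i ∈ S ∪ T, M ≤ i ∧ i < p + 2) :
    ∃ s, SS c (fun i => M ≤ i ∧ i < p + 3) s ∧ SS c (fun i => M ≤ i ∧ i < p + 3) (s + 1) := by
  classical
  have hex : ∃ r, c (t + 2 * r + 2) = 2 * c (t + 2 * r) + 1 := by
    refine ⟨(p - t) / 2, ?_⟩
    have : t + 2 * ((p - t) / 2) = p := by omega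
    rw [this]; exact hp
  set r := Nat.find hex with hr
  have hr1 : c (t + 2 * r + 2) = 2 * c (t + 2 * r) + 1 := Nat.find_spec hex
  have hrp : t + 2 * r ≤ p := by
    have : r ≤ (p - t) / 2 := by
      apply Nat.find_min' hex
      have : t + 2 * ((p - t) / 2) = p := by omega
      rw [this]; exact hp
    omega
  have hr2 : ∀ m < r, c (t + 2 * m + 2) = 2 * c (t + 2 * m) := by
    intro m hm
    have h1 := Nat.find_min hex hm
    have h2 := h.lo (t + 2 * m)
    have h3 := h.hi (t + 2 * m)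
    omega
  have hsum2 : ∀ m ≤ r, c (t + 2 * m) = c t + ∑ j ∈ range m, c (t + 2 * j) := by
    intro m hm
    induction m with
    | zero => simp
    | succ m ih =>
      have h1 := ih (by omega)
      have h2 := hr2 m (by omega)
      rw [sum_range_succ, show t + 2 * (m + 1) = t + 2 * m + 2 by ring, h2]
      omega
  have hfin : c (t + 2 * r + 2) = c t + ∑ j ∈ range (r + 1), c (t + 2 * j) + 1 := by
    have h1 := hsum2 r le_rfl
    rw [sum_range_succ, hr1]
    omega
  have htM := hM t (mem_union_left _ ht)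
  set T' := T ∪ (range (r + 1)).image (fun j => t + 2 * j) with hT'
  set S' := insert (t + 2 * r + 2) (S.erase t) with hS'
  have hTd : Disjoint T ((range (r + 1)).image (fun j => t + 2 * j)) := by
    rw [disjoint_left]
    intro i hi hi'
    rw [mem_image] at hi'
    obtain ⟨j, hj, rfl⟩ := hi'
    have h1 := hmax _ (mem_union_right _ hi) (by omega)
    have h2 : j = 0 := by omega
    subst h2
    simp only [mul_zero, add_zero] at hi
    exact disjoint_left.1 hd ht hi
  have hnS : t + 2 * r + 2 ∉ S.erase t := by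
    intro hc
    rw [mem_erase] at hc
    have h1 := hmax _ (mem_union_left _ hc.2) (by omega)
    omega
  have e1 : ∑ i ∈ T', c i = ∑ i ∈ T, c i + ∑ j ∈ range (r + 1), c (t + 2 * j) := by
    rw [hT', sum_union hTd, sum_image (by intro a _ b _ hab; simpa using hab)]
  have e2 : ∑ i ∈ S', c i = c (t + 2 * r + 2) + ∑ i ∈ S.erase t, c i := by
    rw [hS', sum_insert hnS]
  have e3 := add_sum_erase S c ht
  refine ⟨∑ i ∈ T', c i, ⟨T', ?_, rfl⟩, ⟨S', ?_, ?_⟩⟩
  · intro i hi
    rw [hT', mem_union] at hi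
    rcases hi with hi | hi
    · have := hM i (mem_union_right _ hi)
      omega
    · rw [mem_image] at hi
      obtain ⟨j, hj, rfl⟩ := hi
      rw [mem_range] at hj
      omega
  · intro i hi
    rw [hS', mem_insert] at hi
    rcases hi with rfl | hi
    · omega
    · rw [mem_erase] at hi
      have := hM i (mem_union_left _ hi.2)
      omega
  · omega

theorem Seq.vec (h : Seq c) (S T : Finset ℕ) (hd : Disjoint S T) (hne : (S ∪ T).Nonempty)
    (hsum : ∑ i ∈ S, c i = ∑ i ∈ T, c i) (p : ℕ) (hp : c (p + 2) = 2 * c p + 1)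
    (M : ℕ) (hM : ∀ i ∈ S ∪ T, M ≤ i ∧ i < p + 2) :
    ∃ s, SS c (fun i => M ≤ i ∧ i < p + 3) s ∧ SS c (fun i => M ≤ i ∧ i < p + 3) (s + 1) := by
  classical
  have hne2 : ((S ∪ T).filter (fun i => i % 2 = p % 2)).Nonempty := by
    by_contra hc
    rw [not_nonempty_iff_eq_empty, filter_eq_empty_iff] at hc
    refine h.no_single ((p + 1) % 2) S T hd hne ?_ hsum
    intro i hi
    have := hc hi
    omega
  set t := ((S ∪ T).filter (fun i => i % 2 = p % 2)).max' hne2 with ht
  have h1 : t ∈ (S ∪ T).filter (fun i => i % 2 = p % 2) := max'_mem _ hne2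
  rw [mem_filter] at h1
  have hmax : ∀ i ∈ S ∪ T, i % 2 = p % 2 → i ≤ t := by
    intro i hi hi2
    exact le_max' _ _ (mem_filter.2 ⟨hi, hi2⟩)
  have h2 := hM t h1.1
  have h3 : t ≤ p := by omega
  rcases mem_union.1 h1.1 with h4 | h4
  · exact h.vec_aux S T hd hsum p hp t h4 h3 h1.2 hmax M hM
  · refine h.vec_aux T S hd.symm hsum.symm p hp t h4 h3 h1.2 ?_ M ?_
    · rw [union_comm]; exact hmax
    · rw [union_comm]; exact hM

/-- pigeonhole -/
theorem pigeon (c : ℕ → ℕ) (A : Finset ℕ) (hA : ∑ i ∈ A, c i + 1 < 2 ^ A.card) :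
    ∃ S T : Finset ℕ, Disjoint S T ∧ (S ∪ T).Nonempty ∧ ∑ i ∈ S, c i = ∑ i ∈ T, c i ∧
      (∀ i ∈ S ∪ T, i ∈ A) := by
  classical
  have h1 : (range (∑ i ∈ A, c i + 1)).card < A.powerset.card := by
    rw [card_range, card_powerset]; exact hA
  obtain ⟨S, hS, T, hT, hne, heq⟩ := exists_ne_map_eq_of_card_lt_of_maps_to h1
    (f := fun S => ∑ i ∈ S, c i) (by
      intro S hS
      have hS' : S ∈ A.powerset := by exact_mod_cast hS
      rw [mem_powerset] at hS'
      have : ∑ i ∈ S, c i ≤ ∑ i ∈ A, c i := sum_le_sum_of_subset hS'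
      simp only [coe_range, Set.mem_Iio]
      omega)
  rw [mem_powerset] at hS hT
  refine ⟨S \ T, T \ S, disjoint_sdiff_sdiff, ?_, ?_, ?_⟩
  · by_contra hc
    rw [not_nonempty_iff_eq_empty, union_eq_empty, sdiff_eq_empty_iff_subset,
      sdiff_eq_empty_iff_subset] at hc
    exact hne (Subset.antisymm hc.1 hc.2)
  · have h2 := sum_inter_add_sum_sdiff S T c
    have h3 := sum_inter_add_sum_sdiff T S c
    rw [inter_comm] at h3
    omega
  · intro i hi
    rw [mem_union, mem_sdiff, mem_sdiff] at hi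
    rcases hi with hi | hi
    · exact hS hi.1
    · exact hT hi.1

end Pool.Agent.Helper352.Bed
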